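import Pool.Agent.Y682.YQ.Lay

/-!
# The 2-part of the Birch and Swinnerton-Dyer conjecture at all the layers of the cyclotomic
# `ℤ₃`-extension: the exact proportion among the twists of `X_0(14)`

`E_D` is the quadratic twist by `D` of the modular curve `X_0(14)`.  We consider the squarefree `D`,
positive and negative, `D = 1` modulo `4`, `D` a square modulo `7`, whose prime divisors split
completely in `ℚ(i, √2, √-7)` or are inert in `ℚ(√2)` and in `ℚ(√-7)`, and are inert in the cyclotomic
`ℤ₃`-extension of `ℚ`.  `ℚ(√-7)` is the field of the 2-division points of `E_D`.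

For each of these `D` and each layer `K` of the cyclotomic `ℤ₃`-extension, the rank of `E_D(K)` is zero
and `Ш(E_D/K)[2] = 0` if and only if an explicit matrix over `𝔽₂`, which does not depend on `K`, is
nonsingular (the 2-converse theorem at all the layers), and in this case the 2-part of the conjecture of
Birch and Swinnerton-Dyer holds at each layer, with `L(E_D/K, 1) ≠ 0` and `Ш(E_D/K)[2^∞] = 0`.
This happens for a proportion of exactly `c = ∏_{i ≥ 0} (1 - 2^{-(2 i + 1)}) = 0.419...` of the positive,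
and also of the negative, `D`.

The proof.  (1) The comparison of `E_D` over `K` and over `ℚ` (see the file `AllTwistsOddDegree` of
problem `MP_f50388_nt`).  (2) Over `ℚ`: the formula modulo two for the twists with arbitrarily many
split primes, by the bilinear identity for Gross sums on the definite side and by descent.  (3) The
distribution of the corank of the matrix: large sieve estimates for quadratic symbols, and the
distribution of the coranks of random symmetric matrices.
-/

set_option autoImplicit false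

open NumberField NumberField.InfinitePlace IsDedekindDomain WeierstrassCurve MeasureTheory Filter
  Topology

namespace Pool.Agent.Results.MP_cd906c_nt.AllLayersExactProportion

open scoped Classical

open Pool.Agent.TH841.NF.D (Sha)

/-- The quadratic twist `E_D` of `X_0(14)` (`D = 1` modulo `4`), with its global minimal equation
`y² + x y + y = x³ + ((D - 1)/4) x² + ((9 D² - 1)/2) x - (23 D³ + 1)/4`.  It is isomorphic to
`Y² = X (X² + 13 D X + 128 D²)` by `X = 4 (x - D)`, `Y = 4 (2 y + x + 1)`. -/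
def twist (D : ℤ) : WeierstrassCurve ℤ :=
  ⟨1, (D - 1) / 4, 1, (9 * D ^ 2 - 1) / 2, -((23 * D ^ 3 + 1) / 4)⟩

/-- The curve given by the equation of `W` over the ring `R`. -/
abbrev base (W : WeierstrassCurve ℤ) (R : Type) [CommRing R] : WeierstrassCurve R :=
  W.map (Int.castRingHom R)

/-- The number of the affine points `(x, y)` over the ring `R`. -/
noncomputable def pts (W : WeierstrassCurve ℤ) (R : Type) [CommRing R] : ℕ :=
  Nat.card {P : R × R // (base W R).toAffine.Equation P.1 P.2}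

section

variable {K : Type} [Field K] [NumberField K]

/-- `a_v = N v + 1 - #W(k_v)`, the points over the residue field `k_v` counted with the point at
infinity. -/
noncomputable def a (W : WeierstrassCurve ℤ) (v : HeightOneSpectrum (𝓞 K)) : ℤ :=
  (Ideal.absNorm v.asIdeal : ℤ) - pts W (𝓞 K ⧸ v.asIdeal)

/-- The Euler factor of `L(W/K, s)` at `v` : `(1 - a_v N v^(-s) + N v^(1 - 2 s))⁻¹` if the
discriminant is a unit at `v`, and `(1 - a_v N v^(-s))⁻¹` otherwise. -/
noncomputable def factor (W : WeierstrassCurve ℤ) (s : ℂ) (v : HeightOneSpectrum (𝓞 K)) : ℂ :=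
  (1 - (a W v : ℂ) * (Ideal.absNorm v.asIdeal : ℂ) ^ (-s) +
    if ((W.Δ : ℤ) : 𝓞 K) ∈ v.asIdeal then 0 else (Ideal.absNorm v.asIdeal : ℂ) ^ (1 - 2 * s))⁻¹

/-- The equation is minimal at the finite place `v` of `K`: no change of variables over `K` that
keeps the coefficients integral at `v` decreases the valuation of the discriminant. -/
def MinimalAt (W : WeierstrassCurve ℤ) (v : HeightOneSpectrum (𝓞 K)) : Prop :=
  ∀ C : VariableChange K, v.valuation K (C • base W K).a₁ ≤ 1 →
    v.valuation K (C • base W K).a₂ ≤ 1 → v.valuation K (C • base W K).a₃ ≤ 1 →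
    v.valuation K (C • base W K).a₄ ≤ 1 → v.valuation K (C • base W K).a₆ ≤ 1 →
    v.valuation K (C • base W K).Δ ≤ v.valuation K (base W K).Δ

/-- `E⁰(K_v)`, the group of the points of `W` over the completion `K_v` with nonsingular reduction:
the points `(x, y)` where `x` is not integral, or one of the partial derivatives of
`y² + a₁ x y + a₃ y - x³ - a₂ x² - a₄ x - a₆` is a unit at `(x, y)`, and the point at infinity. -/
noncomputable def nonsing (W : WeierstrassCurve ℤ) (v : HeightOneSpectrum (𝓞 K)) :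
    AddSubgroup (base W (v.adicCompletion K)).toAffine.Point :=
  AddSubgroup.closure {P | ∀ x y h, P = Affine.Point.some x y h →
    1 < Valued.v x ∨ Valued.v (W.a₁ * y - (3 * x ^ 2 + 2 * W.a₂ * x + W.a₄)) = 1 ∨
      Valued.v (2 * y + W.a₁ * x + W.a₃) = 1}

/-- The Tamagawa number `c_v = [E(K_v) : E⁰(K_v)]` of a minimal equation. -/
noncomputable def c (W : WeierstrassCurve ℤ) (v : HeightOneSpectrum (𝓞 K)) : ℕ :=
  (nonsing W v).index

end

section

variable (K : Type) [Field K] [NumberField K]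

/-- The product of the Tamagawa numbers. -/
noncomputable def Tam (W : WeierstrassCurve ℤ) : ℕ := ∏ᶠ v : HeightOneSpectrum (𝓞 K), c W v

/-- The 2-primary part of the Tate-Shafarevich group over `K`. -/
noncomputable abbrev Sha2 (W : WeierstrassCurve ℤ) : AddSubgroup (Sha (base W K)) :=
  AddCommGroup.primaryComponent (Sha (base W K)) 2

/-- The torsion points over `K`. -/
def tors (W : WeierstrassCurve ℤ) : Set (base W K).toAffine.Point := {P | ∃ n : ℕ, 0 < n ∧ n • P = 0}

/-- The rank of the group of the points over `K`. -/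
noncomputable def rank (W : WeierstrassCurve ℤ) : ℕ := Module.finrank ℤ (base W K).toAffine.Point

/-- `g` is a basis of the group of the points over `K` modulo torsion. -/
def IsBasis (W : WeierstrassCurve ℤ) {r : ℕ} (g : Fin r → (base W K).toAffine.Point) : Prop :=
  ∀ P : (base W K).toAffine.Point, ∃! n : Fin r → ℤ, P - ∑ i, n i • g i ∈ tors K W

/-- `h` is the canonical height: `h(P) = lim 4^{-k} h_K(x(2^k P))`, where `h_K` is the logarithmic
height relative to `K`. -/
def IsHeight (W : WeierstrassCurve ℤ) (h : (base W K).toAffine.Point → ℝ) : Prop :=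
  ∀ P : (base W K).toAffine.Point,
    Tendsto (fun k : ℕ => Height.logHeight ((2 ^ k : ℕ) • P).xRep / 4 ^ k) atTop (𝓝 (h P))

/-- The regulator, the determinant of `⟨g_i, g_j⟩ = (h(g_i + g_j) - h(g_i) - h(g_j)) / 2`. -/
noncomputable def reg (W : WeierstrassCurve ℤ) (h : (base W K).toAffine.Point → ℝ) {r : ℕ}
    (g : Fin r → (base W K).toAffine.Point) : ℝ :=
  (Matrix.of fun i j : Fin r => (h (g i + g j) - h (g i) - h (g j)) / 2).det

end

/-- `4 x³ + b₂ x² + 2 b₄ x + b₆ = (2 y + a₁ x + a₃)²`, where `b₂ = a₁² + 4 a₂`,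
`b₄ = 2 a₄ + a₁ a₃`, `b₆ = a₃² + 4 a₆`. -/
def cubic (W : WeierstrassCurve ℤ) {R : Type} [CommRing R] (x : R) : R :=
  4 * x ^ 3 + W.b₂ * x ^ 2 + 2 * W.b₄ * x + W.b₆

/-- `∫_{W(ℝ)} |ω|` with `ω = dx / (2 y + a₁ x + a₃)`, as an integral over `x`: two real points lie
over each `x` with `cubic x > 0`. -/
noncomputable def realPeriod (W : WeierstrassCurve ℤ) : ℝ :=
  2 * ∫ x in {x : ℝ | 0 < cubic W x}, 1 / √(cubic W x)

/-- `2 ∫_{W(ℂ)} |ω ∧ ω̄|`, where `|ω ∧ ω̄| = du dv` in a local parameter `z = u + i v` with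
`dz = ω`, as an integral over `x`: two points lie over a general `x`, and `|ω ∧ ω̄|` is the area
element of the plane of `x` divided by `|cubic x|`. -/
noncomputable def complexPeriod (W : WeierstrassCurve ℤ) : ℝ := 2 * (2 * ∫ x : ℂ, 1 / ‖cubic W x‖)

/-- The global period of an equation that is minimal at all finite places. -/
noncomputable def Omega (K : Type) [Field K] [NumberField K] (W : WeierstrassCurve ℤ) : ℝ :=
  realPeriod W ^ nrRealPlaces K * complexPeriod W ^ nrComplexPlaces K

/-- The `L`-function of `W` over `K` is an entire function `L`, its order at `s = 1` is `n`, and `x` is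
the analytic order of the Tate-Shafarevich group, that is
`L*(1) √|Δ_K| (#E(K)_tors)² / (Reg Ω Tam)`, where `L*(1)` is the leading coefficient at `1`: the value
of `#Ш` that is predicted by the conjecture.  (The three numbers in the denominator and the number of
the torsion points are positive.) -/
def IsAnalyticSha (K : Type) [Field K] [NumberField K] (W : WeierstrassCurve ℤ) (n : ℕ) (x : ℂ) :
    Prop :=
  ∃ (L : ℂ → ℂ) (l : ℂ) (h : (base W K).toAffine.Point → ℝ) (r : ℕ)
    (g : Fin r → (base W K).toAffine.Point), Differentiable ℂ L ∧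
    (∀ s : ℂ, 3 / 2 < s.re → HasProd (factor (K := K) W s) (L s)) ∧
    analyticOrderAt L 1 = n ∧ Tendsto (fun s => L s / (s - 1) ^ n) (𝓝[≠] 1) (𝓝 l) ∧
    IsHeight K W h ∧ IsBasis K W g ∧ 0 < reg K W h g ∧ 0 < Omega K W ∧ 0 < Tam K W ∧
    0 < Nat.card (tors K W) ∧
    x = l * ((√|(discr K : ℝ)| : ℝ) : ℂ) * (Nat.card (tors K W) : ℂ) ^ 2 /
      (((reg K W h g * Omega K W * Tam K W : ℝ)) : ℂ)

/-- The 2-part of the conjecture of Birch and Swinnerton-Dyer for `W` over `K`: the `L`-function is
entire, its order at `s = 1` is the rank, the 2-primary part of the Tate-Shafarevich group is finite,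
and the analytic order of the Tate-Shafarevich group is a rational number with the same 2-adic
valuation as the order of that 2-primary part. -/
def TwoPart (K : Type) [Field K] [NumberField K] (W : WeierstrassCurve ℤ) : Prop :=
  ∃ x : ℚ, x ≠ 0 ∧ IsAnalyticSha K W (rank K W) x ∧ Finite (Sha2 K W) ∧
    padicValRat 2 x = padicValNat 2 (Nat.card (Sha2 K W))

/-! ### The class of the twists -/

/-- primes which split completely in `ℚ(i, √2, √-7)` -/
def Split (p : ℕ) : Prop := p.Prime ∧ p % 8 = 1 ∧ (p % 7 = 1 ∨ p % 7 = 2 ∨ p % 7 = 4)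

/-- primes inert in `ℚ(√2)` and in `ℚ(√-7)` -/
def Inert (q : ℕ) : Prop :=
  q.Prime ∧ (q % 8 = 3 ∨ q % 8 = 5) ∧ (q % 7 = 3 ∨ q % 7 = 5 ∨ q % 7 = 6)

/-- the class of discriminants; the condition modulo `9` means that the prime is inert in all the
layers of the cyclotomic `ℤ₃`-extension of `ℚ` -/
def Adm (D : ℤ) : Prop := Squarefree D ∧ D % 4 = 1 ∧ (D % 7 = 1 ∨ D % 7 = 2 ∨ D % 7 = 4) ∧
  ∀ p : ℕ, p.Prime → (p : ℤ) ∣ D →
    (Split p ∨ Inert p) ∧ (p % 9 = 2 ∨ p % 9 = 4 ∨ p % 9 = 5 ∨ p % 9 = 7)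

/-- the prime factors `≡ 1 mod 8` of `D` -/
def S (D : ℤ) : Finset ℕ := D.natAbs.primeFactors.filter fun p => p % 8 = 1

/-- the matrix over `𝔽₂` with rows and columns indexed by `S D`: off the diagonal the
entry at `(p, p')` is `1` if `p'` is not a square modulo `p` and `0` otherwise; on the diagonal it
is the number of the prime factors of `D` different from `p` which are not squares modulo `p`, plus
`1` if the number of the points of `X_0(14)` modulo `p` is not divisible by `8` -/
noncomputable def R (D : ℤ) : Matrix (S D) (S D) (ZMod 2) := Matrix.of fun i j =>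
  if i = j then
    (((D.natAbs.primeFactors.filter fun r : ℕ => r ≠ (i : ℕ) ∧
      ¬ IsSquare (r : ZMod (i : ℕ))).card : ZMod 2) +
        if 8 ∣ pts (twist 1) (ZMod (i : ℕ)) + 1 then 0 else 1)
  else if IsSquare (((j : ℕ)) : ZMod (i : ℕ)) then 0 else 1

/-- The 2-part of the conjecture of Birch and Swinnerton-Dyer holds for `E_D` over `K`, the rank of
`E_D(K)` is zero and `Ш(E_D/K)[2^∞] = 0`. -/
def Good (K : Type) [Field K] [NumberField K] (D : ℤ) : Prop :=
  TwoPart K (twist D) ∧ rank K (twist D) = 0 ∧ Nat.card (Sha2 K (twist D)) = 1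

/-- The rank of `E_D(K)` is zero and `Ш(E_D/K)[2] = 0`. -/
def Small (K : Type) [Field K] [NumberField K] (D : ℤ) : Prop :=
  rank K (twist D) = 0 ∧ ∀ x : Sha (base (twist D) K), 2 • x = 0 → x = 0

/-- `Good K D` at every layer `K` of the cyclotomic `ℤ₃`-extension of `ℚ` (`K` is a subfield of odd
degree of a `3 ^ (n + 1)`-th cyclotomic field). -/
def AllLayers (D : ℤ) : Prop := ∀ (n : ℕ) (M : Type) [Field M] [NumberField M]
  [IsCyclotomicExtension {3 ^ (n + 1)} ℚ M] (K : IntermediateField ℚ M),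
  Odd (Module.finrank ℚ K) → Good K D

/-- the number of the integers `D` with `|D| ≤ X` and `Q D` -/
noncomputable def count (Q : ℤ → Prop) (X : ℕ) : ℕ := Nat.card {D : ℤ // |D| ≤ X ∧ Q D}

/-- `c = ∏_{i ≥ 0} (1 - 2^{-(2 i + 1)})` -/
noncomputable def cc : ℝ := ∏' i : ℕ, (1 - (1 / 2 : ℝ) ^ (2 * i + 1))

/-- the `D` with `Q D` have the proportion `c` among the `D` of the class of the sign of `s`, ordered
by absolute value -/
def Proportion (Q : ℤ → Prop) (s : ℤ) (c : ℝ) : Prop :=
  Tendsto (fun X : ℕ => (count (fun D => Adm D ∧ 0 < s * D ∧ Q D) X : ℝ) /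
    (count (fun D => Adm D ∧ 0 < s * D) X : ℝ)) atTop (𝓝 c)

/-- the number of the `D` of the class of the sign of `s` with `|D| ≤ X` is at least a positive
constant times `X (log X)^(-3/4)` -/
def Many (s : ℤ) : Prop := ∃ (a : ℝ) (X₀ : ℕ), 0 < a ∧ ∀ X : ℕ, X₀ ≤ X →
  a * X * (Real.log X) ^ (-(3 / 4) : ℝ) ≤ (count (fun D => Adm D ∧ 0 < s * D) X : ℝ)

/-- **Main theorem.**
(1) For each `D` of the class and each layer `K` of the cyclotomic `ℤ₃`-extension of `ℚ`: the equation
of `E_D` is minimal at all the finite places of `K`; the rank of `E_D(K)` is zero and `Ш(E_D/K)[2] = 0`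
if and only if the matrix `R D` is nonsingular; and in this case the 2-part of the conjecture of Birch
and Swinnerton-Dyer holds for `E_D` over `K`.
(2) The property `AllLayers` holds if and only if it is nonsingular.
(3) The proportion of these `D` among the positive `D` of the class, ordered by absolute value, is `c`,
and this is also the proportion among the negative ones; `0.4194 < c < 0.4195`.
(4) The number of the `D` of the class of a given sign with `|D| ≤ X` is at least a positive constant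
times `X (log X)^(-3/4)`. -/
theorem result :
    (∀ D : ℤ, Adm D → ∀ (n : ℕ) (M : Type) [Field M] [NumberField M]
      [IsCyclotomicExtension {3 ^ (n + 1)} ℚ M] (K : IntermediateField ℚ M),
      Odd (Module.finrank ℚ K) →
      (∀ v : HeightOneSpectrum (𝓞 K), MinimalAt (twist D) v) ∧
      (Small K D ↔ (R D).det ≠ 0) ∧ ((R D).det ≠ 0 → Good K D)) ∧
    (∀ D : ℤ, Adm D → (AllLayers D ↔ (R D).det ≠ 0)) ∧
    (0.4194 < cc ∧ cc < 0.4195) ∧
    ∀ s : ℤ, (s = 1 ∨ s = -1) → Proportion AllLayers s cc ∧ Many s := by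
  have hA : ∀ D : ℤ, Adm D ↔ (Pool.Agent.Y687.MQ.AdmD D ∧ Pool.Agent.Y682.YQ.H9 D) := by
    intro D
    constructor
    · rintro ⟨h1, h2, h3, h4⟩
      refine ⟨⟨h1, h2, h3, fun p hp hd => ⟨?_, (h4 p hp hd).1⟩⟩, fun p hp hd => (h4 p hp hd).2⟩
      rintro rfl
      have := (h4 3 hp hd).2
      omega
    · rintro ⟨⟨h1, h2, h3, h4⟩, h5⟩
      exact ⟨h1, h2, h3, fun p hp hd => ⟨(h4 p hp hd).2, h5 p hp hd⟩⟩
  have hR : ∀ D : ℤ, Adm D → R D = Pool.Agent.Y687.MQ.matD D := by
    intro D hD
    have hS := (Pool.Agent.Y687.MQ.of_admD ((hA D).1 hD).1).1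
    unfold R Pool.Agent.Y687.MQ.matD
    ext i j
    simp only [Matrix.of_apply]
    have hi := hS i.1 i.2
    have h8 := hi.2.1
    have h7 := hi.2.2
    have e : pts (twist 1) (ZMod (i : ℕ)) + 1 = Pool.Agent.Y687.NN 1 (i : ℕ) := by
      have h1 := Pool.Agent.Z705.cnt_affCountZ (D := 1) hi.1 (by omega) (by omega) (by norm_num) (by
        intro h
        rw [Int.natAbs_one, Nat.dvd_one] at h
        exact hi.1.one_lt.ne' h)
      unfold Pool.Agent.Y687.NN
      rw [Nat.cast_one, h1]
      rfl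
    rw [e]
    rfl
  have hc2 := Pool.Agent.Y948.CQ.t_C2.2.2.2
  have key : ∀ D : ℤ, Adm D → ∀ (n : ℕ) (M : Type) [Field M] [NumberField M]
      [IsCyclotomicExtension {3 ^ (n + 1)} ℚ M] (K : IntermediateField ℚ M),
      Odd (Module.finrank ℚ K) →
      (∀ v : HeightOneSpectrum (𝓞 K), MinimalAt (twist D) v) ∧
      (Small K D ↔ (R D).det ≠ 0) ∧ ((R D).det ≠ 0 → Good K D) := by
    intro D hD n M _ _ _ K hodd
    rw [hR D hD]
    exact Pool.Agent.Y682.YQ.layer ((hA D).1 hD).1 ((hA D).1 hD).2 n M K hodd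
  have h21 : ∀ (A : Type) [AddCommGroup A] (x : A), 2 • x = 0 → 2 ^ 1 • x = 0 := by
    intro A _ x hx
    rw [pow_one]
    exact hx
  have hall : ∀ D : ℤ, Adm D → (AllLayers D ↔ (R D).det ≠ 0) := by
    intro D hD
    constructor
    · intro h
      have hz : NeZero (3 ^ (0 + 1)) := ⟨by norm_num⟩
      have hcyc : IsCyclotomicExtension {3 ^ (0 + 1)} ℚ (CyclotomicField (3 ^ (0 + 1)) ℚ) :=
        CyclotomicField.isCyclotomicExtension (3 ^ (0 + 1)) ℚ
      have hodd : Odd (Module.finrank ℚ (⊥ : IntermediateField ℚ (CyclotomicField (3 ^ (0 + 1)) ℚ))) := by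
        rw [IntermediateField.finrank_bot]
        exact odd_one
      obtain ⟨-, h2, h3⟩ := h 0 (CyclotomicField (3 ^ (0 + 1)) ℚ) ⊥ hodd
      obtain ⟨-, k2, -⟩ := key D hD 0 (CyclotomicField (3 ^ (0 + 1)) ℚ) ⊥ hodd
      refine k2.1 ⟨h2, fun x hx => ?_⟩
      have hx' : x ∈ Sha2 (⊥ : IntermediateField ℚ (CyclotomicField (3 ^ (0 + 1)) ℚ)) (twist D) :=
        ⟨1, h21 _ x hx⟩
      have h4 := (Nat.card_eq_one_iff_unique.1 h3).1
      exact congrArg Subtype.val (Subsingleton.elim (⟨x, hx'⟩ : Sha2 (⊥ : IntermediateField ℚ (CyclotomicField (3 ^ (0 + 1)) ℚ)) (twist D)) 0)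
    · intro h n M _ _ _ K hodd
      exact (key D hD n M K hodd).2.2 h
  refine ⟨key, hall, hc2, fun s hs => ⟨?_, ?_⟩⟩
  · have h := Pool.Agent.Y682.YQ.prop9 hs AllLayers fun D h1 h2 => by
      have hD := (hA D).2 ⟨h1, h2⟩
      rw [hall D hD, hR D hD]
      exact Iff.rfl
    refine h.congr fun X => ?_
    have e1 : Pool.Agent.Y682.YQ.CA.count (fun D => Pool.Agent.Y687.MQ.AdmD D ∧ 0 < s * D ∧
        (Pool.Agent.Y682.YQ.H9 D ∧ AllLayers D)) X =
        count (fun D => Adm D ∧ 0 < s * D ∧ AllLayers D) X := by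
      unfold Pool.Agent.Y682.YQ.CA.count count
      refine Nat.card_congr (Equiv.subtypeEquivRight fun D => ?_)
      show (|D| ≤ (X : ℤ) ∧ (Pool.Agent.Y687.MQ.AdmD D ∧ 0 < s * D ∧
        (Pool.Agent.Y682.YQ.H9 D ∧ AllLayers D))) ↔ (|D| ≤ (X : ℤ) ∧ (Adm D ∧ 0 < s * D ∧ AllLayers D))
      rw [hA D]
      tauto
    have e2 : Pool.Agent.Y682.YQ.CA.count (fun D => Pool.Agent.Y687.MQ.AdmD D ∧ 0 < s * D ∧
        Pool.Agent.Y682.YQ.H9 D) X = count (fun D => Adm D ∧ 0 < s * D) X := by
      unfold Pool.Agent.Y682.YQ.CA.count count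
      refine Nat.card_congr (Equiv.subtypeEquivRight fun D => ?_)
      show (|D| ≤ (X : ℤ) ∧ (Pool.Agent.Y687.MQ.AdmD D ∧ 0 < s * D ∧ Pool.Agent.Y682.YQ.H9 D)) ↔
        (|D| ≤ (X : ℤ) ∧ (Adm D ∧ 0 < s * D))
      rw [hA D]
      tauto
    rw [e1, e2]
  · obtain ⟨a, X₀, ha, h⟩ := Pool.Agent.Y682.YQ.low9 hs
    refine ⟨a, X₀, ha, fun X hX => ?_⟩
    have e2 : Pool.Agent.Y682.YQ.CA.count (fun D => Pool.Agent.Y687.MQ.AdmD D ∧ 0 < s * D ∧
        Pool.Agent.Y682.YQ.H9 D) X = count (fun D => Adm D ∧ 0 < s * D) X := by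
      unfold Pool.Agent.Y682.YQ.CA.count count
      refine Nat.card_congr (Equiv.subtypeEquivRight fun D => ?_)
      show (|D| ≤ (X : ℤ) ∧ (Pool.Agent.Y687.MQ.AdmD D ∧ 0 < s * D ∧ Pool.Agent.Y682.YQ.H9 D)) ↔
        (|D| ≤ (X : ℤ) ∧ (Adm D ∧ 0 < s * D))
      rw [hA D]
      tauto
    rw [← e2]
    exact h X hX

end Pool.Agent.Results.MP_cd906c_nt.AllLayersExactProportion
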