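import Pool.Agent.Y682.XD.Fin
import Pool.Agent.Y688.XD.Hecke
import Pool.Agent.Y461.XD.Apev
import Pool.Agent.Y461.XD.Cond
import Pool.Agent.Y944.XD.Cl
import Pool.Agent.Y971.XD.Dec
import Pool.Agent.Y839.XD.Sup
import Pool.Agent.Y421.XD.TR
import Pool.Agent.Y421.XD.Rke
import Pool.Agent.Y888.XD.Qf
import Pool.Agent.Y657.XD.Tw
import Pool.Agent.Y500.XD.Zero
import Pool.Agent.Y275.XD.Basel
import Pool.Agent.Y758.XD.NZ
import Pool.Agent.Y356.XD.Nclt
import Pool.Agent.Y153.XD.Sq
import Pool.Agent.Y51.XD.Deg2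
import Pool.Agent.Y419.XD.Ram

/-!
# Order of vanishing and rank of `X_0(14)` over composites of multiquadratic and cyclotomic fields

`E` is the modular curve `X_0(14)`, `y² + xy + y = x³ + 4x - 6`.  Let `q` be a power of a prime, prime
to `14`, and `K` a subfield of odd degree of the `q`-th cyclotomic field in which `2` and `7` are inert
and whose narrow class number is odd; this is proved for all `K` if `q = 3^n`.  Let `F₀ = ℚ(√d : d ∈ S)`
be any multiquadratic field, real or not, where the `d ≡ 1` modulo `4` are composed of primes not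
dividing `14` that are inert in `K` or divide `q`.  Then the order of vanishing at `s = 1` of the
`L`-function of `E` and the rank of `E` are the same over `F = F₀ K` as over `F₀`, for all the `K` of an
infinite tower at once.  So the conjecture of Birch and Swinnerton-Dyer on the rank holds for `E` over
`F` if and only if it holds over `F₀`.  If the prime factors of the `d` are `5` modulo `8` and not
squares modulo `7`, then the order and the rank are zero.

The proof.  Analytic side: for `f = E` and a character `χ` of `Gal(F/ℚ)` that is not a character of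
`Gal(F₀/ℚ)`, write `χ = χ₀ ω` with `χ₀` quadratic and `ω ≠ 1` a character of `Gal(K/ℚ)` of odd order.
Modulo the primes above `2` the modular symbols of `f` (even and odd ones) are functions of the signs
of the cyclotomic units, and `L(f, χ, 1)` divided by the period is, modulo the primes above `2`, the
product of the same sum for `ω` and Euler factors at the primes which are inert in `K`; these are
units, so `L(f, χ, 1) ≠ 0`.  Algebraic side: descent with the isogenies of degree two, for each twist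
`E_d`: `E_d(K) ⊗ ℤ₂` and `E_d(ℚ) ⊗ ℤ₂` have the same 2-Selmer groups.
-/

set_option autoImplicit false

open NumberField IsDedekindDomain

namespace Pool.Agent.Results.MP_cd906c_nt.MultiquadraticTowers

open scoped Classical

open Pool.Agent.Y682 (NCl)

/-- The elliptic curve `X_0(14)`, with its global minimal equation
`y² + x y + y = x³ + 4 x - 6`. -/
def E : WeierstrassCurve ℤ := ⟨1, 0, 1, 4, -6⟩

/-- The curve given by the equation of `W` over the ring `R`. -/
abbrev base (W : WeierstrassCurve ℤ) (R : Type) [CommRing R] : WeierstrassCurve R :=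
  W.map (Int.castRingHom R)

/-- The number of the affine points `(x, y)` over the ring `R`. -/
noncomputable def pts (W : WeierstrassCurve ℤ) (R : Type) [CommRing R] : ℕ :=
  Nat.card {P : R × R // (base W R).toAffine.Equation P.1 P.2}

section

variable {K : Type} [Field K] [NumberField K]

/-- `a_v = N v + 1 - #W(k_v)`, the points over the residue field `k_v` counted with the point at
infinity. -/
noncomputable def a (W : WeierstrassCurve ℤ) (v : HeightOneSpectrum (𝓞 K)) : ℤ :=
  (Ideal.absNorm v.asIdeal : ℤ) - pts W (𝓞 K ⧸ v.asIdeal)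

/-- The Euler factor of `L(W/K, s)` at `v` : `(1 - a_v N v^(-s) + N v^(1 - 2 s))⁻¹` if the
discriminant is a unit at `v`, and `(1 - a_v N v^(-s))⁻¹` otherwise. -/
noncomputable def factor (W : WeierstrassCurve ℤ) (s : ℂ) (v : HeightOneSpectrum (𝓞 K)) : ℂ :=
  (1 - (a W v : ℂ) * (Ideal.absNorm v.asIdeal : ℂ) ^ (-s) +
    if ((W.Δ : ℤ) : 𝓞 K) ∈ v.asIdeal then 0 else (Ideal.absNorm v.asIdeal : ℂ) ^ (1 - 2 * s))⁻¹

end

section

variable (K : Type) [Field K] [NumberField K]

/-- The rank of the group of the points over `K`. -/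
noncomputable def rank (W : WeierstrassCurve ℤ) : ℕ := Module.finrank ℤ (base W K).toAffine.Point

/-- `n` generates a prime ideal of the ring of integers of `K`. -/
def Inert (n : ℕ) : Prop := (Ideal.span {((n : ℕ) : 𝓞 K)}).IsPrime

end

/-- The subfield `ℚ(√d : d ∈ S)` of `ℂ`. -/
noncomputable def multiquadratic (S : Finset ℤ) : IntermediateField ℚ ℂ :=
  IntermediateField.adjoin ℚ {z : ℂ | ∃ d ∈ S, z ^ 2 = (d : ℂ)}

/-- The subfield of `ℂ` generated by the `q`-th roots of unity. -/
noncomputable def cyclotomic (q : ℕ) : IntermediateField ℚ ℂ :=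
  IntermediateField.adjoin ℚ {z : ℂ | z ^ q = 1}

lemma E_disc : E.Δ = -21952 := by
  unfold E WeierstrassCurve.Δ WeierstrassCurve.b₂ WeierstrassCurve.b₄ WeierstrassCurve.b₆
    WeierstrassCurve.b₈
  norm_num

lemma disc_mem {K : Type} [Field K] [NumberField K] (v : HeightOneSpectrum (𝓞 K)) :
    ((E.Δ : ℤ) : 𝓞 K) ∈ v.asIdeal ↔ ((14 : ℤ) : 𝓞 K) ∈ v.asIdeal := by
  have h2 : ((E.Δ : ℤ) : 𝓞 K) = -(((14 : ℤ) : 𝓞 K) ^ 3 * 8) := by
    rw [E_disc]; push_cast; norm_num
  have h3 : ((14 : ℤ) : 𝓞 K) = 2 * 7 := by push_cast; norm_num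
  rw [h2, neg_mem_iff]
  constructor
  · intro h
    rcases v.isPrime.mem_or_mem h with h | h
    · exact v.isPrime.mem_of_pow_mem 3 h
    · rw [show (8 : 𝓞 K) = 2 ^ 3 by norm_num] at h
      rw [h3]
      exact Ideal.mul_mem_right _ _ (v.isPrime.mem_of_pow_mem 3 h)
  · intro h
    exact Ideal.mul_mem_right _ _ (Ideal.pow_mem_of_mem _ h 3 (by norm_num))

lemma factor_eq {K : Type} [Field K] [NumberField K] (s : ℂ) :
    factor (K := K) E s = Pool.Agent.Y682.XT.fE (K := K) s := by
  funext v
  have h1 : a E v = Pool.Agent.Y682.XT.av v := rfl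
  unfold factor Pool.Agent.Y682.XT.fE
  rw [h1]
  simp only [disc_mem]

/-- all the parts -/
theorem parts : Pool.Agent.Y682.XD.Parts where
  hecke := Pool.Agent.Y688.XD.s_hecke
  apev := Pool.Agent.Y461.XD.s_apev
  basel := Pool.Agent.Y275.XD.s_basel
  cond := Pool.Agent.Y461.XD.s_cond
  cl := Pool.Agent.Y944.XD.s_cl
  dec := Pool.Agent.Y971.XD.s_dec
  sup := Pool.Agent.Y839.XD.s_sup
  tr := Pool.Agent.Y421.XD.s_tr
  rke := Pool.Agent.Y421.XD.s_rke
  qf := Pool.Agent.Y888.XD.s_qf
  tw := Pool.Agent.Y657.XD.s_tw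
  zero := Pool.Agent.Y500.XD.s_zero
  nz := Pool.Agent.Y758.XD.s_nz
  nclt := Pool.Agent.Y356.XD.s_nclt
  sq := Pool.Agent.Y153.XD.s_sq
  deg2 := Pool.Agent.Y51.XD.s_deg2
  ram := Pool.Agent.Y419.XD.s_ram

lemma rank_eq (F : Type) [Field F] [NumberField F] : rank F E = Pool.Agent.Y682.XD.RR F 1 := by
  rw [← Pool.Agent.Y682.XD.rank_E F]
  rfl

/-- **Main theorem.** Let `q` be a power of a prime, prime to `14`, and let `K ⊂ ℂ` be a number field
of odd degree contained in the `q`-th cyclotomic field.  Suppose that `q` is a power of three (then `K`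
is a layer of the cyclotomic `ℤ₃`-extension of `ℚ`), or that `2` and `7` are inert in `K` and the
narrow class number of `K` is odd.  Let `S` be a finite set of squarefree integers `d ≡ 1` modulo `4`,
positive or negative, prime to `14`, whose prime factors are inert in `K` or divide `q`; let
`F₀ = ℚ(√d : d ∈ S)` and `F = F₀ K`.

Then the `L`-functions `L₀` and `L` of `E = X_0(14)` over `F₀` and `F` are entire, their orders of
vanishing at `s = 1` are finite and equal, and the ranks of `E(F₀)` and `E(F)` are equal.  Hence the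
order is the rank for `F` if and only if it is the rank for `F₀`.  If the prime factors of the elements
of `S` are `5` modulo `8` and not squares modulo `7`, then the orders and the ranks are zero. -/
theorem result (q : ℕ) [NeZero q] (hq : IsPrimePow q) (hco : q.Coprime 14)
    (K : IntermediateField ℚ ℂ) [NumberField K] (hK : K ≤ cyclotomic q)
    (hodd : Odd (Module.finrank ℚ K))
    (hcl : 3 ∣ q ∨ (Inert K 2 ∧ Inert K 7 ∧ Odd (Nat.card (NCl K))))
    (S : Finset ℤ) (hS : ∀ d ∈ S, Squarefree d ∧ d % 4 = 1 ∧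
      ∀ p : ℕ, p.Prime → (p : ℤ) ∣ d → ¬ p ∣ 14 ∧ (p ∣ q ∨ Inert K p))
    (F₀ F : IntermediateField ℚ ℂ) [NumberField F₀] [NumberField F]
    (hF₀ : F₀ = multiquadratic S) (hF : F = F₀ ⊔ K) :
    ∃ L₀ L : ℂ → ℂ, Differentiable ℂ L₀ ∧ Differentiable ℂ L ∧
      (∀ s : ℂ, 3 / 2 < s.re → HasProd (factor (K := F₀) E s) (L₀ s)) ∧
      (∀ s : ℂ, 3 / 2 < s.re → HasProd (factor (K := F) E s) (L s)) ∧
      (analyticOrderAt L 1 = analyticOrderAt L₀ 1 ∧ analyticOrderAt L₀ 1 ≠ ⊤) ∧
      rank F E = rank F₀ E ∧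
      (analyticOrderAt L 1 = rank F E ↔ analyticOrderAt L₀ 1 = rank F₀ E) ∧
      ((∀ d ∈ S, ∀ p : ℕ, p.Prime → (p : ℤ) ∣ d →
        p % 8 = 5 ∧ (p % 7 = 3 ∨ p % 7 = 5 ∨ p % 7 = 6)) →
        analyticOrderAt L₀ 1 = 0 ∧ analyticOrderAt L 1 = 0 ∧ rank F₀ E = 0 ∧ rank F E = 0) := by
  obtain ⟨L₀, L, h1, h2, h3, h4, h5, h6, h7, h8⟩ :=
    Pool.Agent.Y682.XD.main parts q hq hco K hK hodd hcl S hS F₀ F hF₀ hF
  have h9 : rank F E = rank F₀ E := by rw [rank_eq, rank_eq, h7]
  refine ⟨L₀, L, h1, h2, fun s hs => ?_, fun s hs => ?_, ⟨h5, h6⟩, h9, ?_, fun h => ?_⟩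
  · rw [factor_eq]
    exact h3 s hs
  · rw [factor_eq]
    exact h4 s hs
  · rw [h5, h9]
  · obtain ⟨h10, h11⟩ := h8 h
    have h12 : analyticOrderAt L₀ 1 = 0 := analyticOrderAt_eq_zero.2 (Or.inr h10)
    have h13 : rank F₀ E = 0 := by rw [rank_eq, h11]
    exact ⟨h12, h5.trans h12, h13, h9.trans h13⟩

end Pool.Agent.Results.MP_cd906c_nt.MultiquadraticTowers
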