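import Pool.Agent.Y697.MQ.KL2
import Pool.Agent.Y697.MQ.KR
import Pool.Agent.Y697.MQ.Ex4
import Pool.Agent.Y697.PQ.Towp

/-!
# A positive proportion of the quadratic twists has rank and order of vanishing zero over a tower with
# prescribed bottom

`P` is any finite set of primary primes of `ℤ[i]`.  For at least the proportion `0.419 ^ (2 ^ #P)` of the
primary squarefree `D` prime to `P`, ordered by norm, the rank of `E_D : y² = x³ + D² x` and the order of
vanishing of its L-function at `1` are zero over `ℚ(i)(√p : p ∈ P)`, over all its subfields containing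
`ℚ(i)`, and over all fields of an infinite tower above it.
-/

set_option autoImplicit false

namespace Pool.Agent.Results.MP_cd906c_nt.ProportionOverTowers

open Filter Topology NumberField IsDedekindDomain

/-- `d` is primary: `d ≡ 1` modulo `2 + 2i`. -/
def Primary (d : GaussianInt) : Prop := (⟨2, 2⟩ : GaussianInt) ∣ d - 1

variable {K : Type} [Field K] [NumberField K]

/-- `K = ℚ(i)(√d : d ∈ s)`, where `ℤ[i]` is embedded in `K` by `ι`. -/
def Generated (ι : GaussianInt →+* 𝓞 K) (s : Finset GaussianInt) : Prop :=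
  ∃ r : GaussianInt → 𝓞 K, (∀ d ∈ s, r d ^ 2 = ι d) ∧
    ∀ L : Subfield K, (∀ g : GaussianInt, (ι g : K) ∈ L) → (∀ d ∈ s, (r d : K) ∈ L) → L = ⊤

/-- `q_v`, the number of elements of the residue field `k_v`. -/
noncomputable def q (v : HeightOneSpectrum (𝓞 K)) : ℕ := Ideal.absNorm v.asIdeal

/-- `#E(k_v)` with the point at infinity, for `E : y² = x³ + a x`. -/
noncomputable def numPoints (a : 𝓞 K) (v : HeightOneSpectrum (𝓞 K)) : ℕ :=
  Nat.card {P : (𝓞 K ⧸ v.asIdeal) × (𝓞 K ⧸ v.asIdeal) // P.2 ^ 2 =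
    P.1 ^ 3 + Ideal.Quotient.mk v.asIdeal a * P.1} + 1

/-- The Euler factor `(1 - a_v q_v^{-s} + q_v^{1-2s})⁻¹` of `y² = x³ + a x`,
`a_v = q_v + 1 - #E(k_v)`. -/
noncomputable def factor (a : 𝓞 K) (s : ℂ) (v : HeightOneSpectrum (𝓞 K)) : ℂ :=
  (1 - ((q v : ℂ) + 1 - numPoints a v) * (q v : ℂ) ^ (-s) + (q v : ℂ) ^ (1 - 2 * s))⁻¹

/-- The curve `y² = x³ + a x` over `K`. -/
noncomputable def curve (a : 𝓞 K) : WeierstrassCurve.Affine K :=
  WeierstrassCurve.toAffine { a₁ := 0, a₂ := 0, a₃ := 0, a₄ := (a : K), a₆ := 0 }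

open Classical in
/-- The rank of the group of `K`-rational points. -/
noncomputable def rank (a : 𝓞 K) : ℕ := Module.finrank ℤ (curve a).Point

/-- For `E : y² = x³ + D² x` the group `E(K)` is finite, the Euler product over the places of `K` which
do not divide `2 D ∏ d`, `d ∈ s`, has an entire continuation `F` with `F(1) ≠ 0`, and the order of `F`
at `1` is the rank. -/
def RankZero (ι : GaussianInt →+* 𝓞 K) (s : Finset GaussianInt) (D : GaussianInt) : Prop :=
  Finite (curve (ι (D ^ 2))).Point ∧ ∃ F : ℂ → ℂ, Differentiable ℂ F ∧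
    (∀ z : ℂ, 3 / 2 < z.re → HasProd (fun v : {v : HeightOneSpectrum (𝓞 K) //
      ι (2 * D * ∏ d ∈ s, d) ∉ v.asIdeal} => factor (ι (D ^ 2)) z v.1) (F z)) ∧
    F 1 ≠ 0 ∧ analyticOrderAt F 1 = rank (ι (D ^ 2))

/-- The primary squarefree Gaussian integers of norm at most `X` which are prime to `P`. -/
def All (P : Finset GaussianInt) (X : ℕ) : Set GaussianInt :=
  {D | D.norm.natAbs ≤ X ∧ Primary D ∧ Squarefree D ∧ ∀ p ∈ P, ¬ p ∣ D}

/-- Those `D` with an infinite set `S` of primary primes, not dividing `D` and containing `P`, such that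
the rank of `E_D : y² = x³ + D² x` and the order of vanishing of its `L`-function are zero over `ℚ(i)`
and over all fields generated over `ℚ(i)` by square roots of primary elements with all prime factors
in `S`. -/
def Tower (P : Finset GaussianInt) (X : ℕ) : Set GaussianInt := {D | D ∈ All P X ∧
  ∃ S : Set GaussianInt, S.Infinite ∧ (∀ p ∈ P, p ∈ S) ∧
    (∀ p ∈ S, Prime p ∧ Primary p ∧ ¬ p ∣ D) ∧
    ∀ (K : Type) [Field K] [NumberField K] (ι : GaussianInt →+* 𝓞 K) (s : Finset GaussianInt),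
      Generated ι s → (∀ d ∈ s, Primary d ∧ ∀ p, Prime p → Primary p → p ∣ d → p ∈ S) →
        RankZero ι s D}

theorem all_finite (P : Finset GaussianInt) (X : ℕ) : (All P X).Finite :=
  (Y697.MQ.fin_norm X).subset fun _ h => h.1

open Classical in
theorem all_le (P : Finset GaussianInt) (X : ℕ) : (All P X).ncard ≤
    ((Y697.PP.SS X).filter fun S => Disjoint S P).card := by
  have h1 : All P X ⊆ ((((Y697.PP.SS X).filter fun S => Disjoint S P).image
      fun S => ∏ p ∈ S, p : Finset GaussianInt) : Set GaussianInt) := by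
    rintro D ⟨h1, h2, h3, h4⟩
    obtain ⟨T, hT, e, he, hDe⟩ := Y697.MQ.exists_ker2 D ((Y697.MQ.Pr_iff D).2 h2)
    have he1 : e = 1 := by
      apply he.unit
      apply h3 e
      rw [hDe, pow_two]
      exact dvd_mul_left _ _
    rw [he1, one_pow, mul_one] at hDe
    rw [Finset.mem_coe, Finset.mem_image]
    refine ⟨T, Finset.mem_filter.2 ⟨Y697.PP.mem_SS.2 ⟨fun p hp => (hT p hp).1, ?_⟩, ?_⟩, hDe.symm⟩
    · unfold Y697.PP.NS
      rw [← hDe]
      exact h1
    · rw [Finset.disjoint_left]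
      intro p hp hpP
      apply h4 p hpP
      rw [hDe]
      exact Finset.dvd_prod_of_mem _ hp
  have h2 := Set.ncard_le_ncard h1 (Finset.finite_toSet _)
  rw [Set.ncard_coe_finset] at h2
  exact h2.trans Finset.card_image_le

theorem mem_tower {P : Finset GaussianInt} (hP : ∀ p ∈ P, Y697.MQ.OP p) {X : ℕ}
    {Q : Finset GaussianInt} (hQ : Q ∈ Y697.PP.SS X) (hd : Y697.PQ.Dj P Q) :
    (∏ x ∈ Q, x) ∈ Tower P X := by
  classical
  have hOP : ∀ p : GaussianInt, Prime p ∧ Primary p ↔ Y697.MQ.OP p := fun p =>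
    ⟨fun h => ⟨h.1, (Y697.MQ.Pr_iff p).2 h.2⟩, fun h => ⟨h.pr, (Y697.MQ.Pr_iff p).1 h.pm⟩⟩
  obtain ⟨hQOP, hQX⟩ := Y697.PP.mem_SS.1 hQ
  obtain ⟨hdis, hdet⟩ := hd
  obtain ⟨R, hRinf, hR, hQR, hPR, hgood⟩ := Y697.PQ.exists_towerP hP hQOP hdis
    fun U hU => Y697.PP.gd_of_det (by convert hdet U hU)
  have hnd : ∀ p : GaussianInt, Y697.MQ.OP p → p ∉ Q → ¬ p ∣ ∏ x ∈ Q, x := by
    intro p hp hpQ hdvd
    obtain ⟨x, hx, hpx⟩ := (Prime.dvd_finsetProd_iff hp.pr _).1 hdvd
    rw [hp.dvd (hQOP x hx) hpx] at hpQ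
    exact hpQ hx
  refine ⟨⟨hQX, (Y697.MQ.Pr_iff _).1 (Y697.MQ.Pr_prod fun x hx => (hQOP x hx).pm), ?_, ?_⟩,
    R, hRinf, hPR, ?_, ?_⟩
  · refine Finset.squarefree_prod_of_pairwise_isCoprime (fun a ha b hb hab => ?_)
      fun x hx => (hQOP x hx).pr.squarefree
    exact (((hQOP a ha).pr.irreducible.coprime_iff_not_dvd).2 fun h1 =>
      hab ((hQOP a ha).dvd (hQOP b hb) h1)).isRelPrime
  · exact fun p hp => hnd p (hP p hp) fun hpQ => Finset.disjoint_left.1 hdis hpQ hp
  · intro p hp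
    have h1 : Prime p ∧ Primary p := (hOP p).2 (hR p hp)
    exact ⟨h1.1, h1.2, hnd p ((hOP p).1 h1) fun hpQ => hQR p hpQ hp⟩
  · intro K _ _ ι s hs₀ hs
    obtain ⟨r, hr1, hr2⟩ := hs₀
    have hgen : Y697.MQ.GenBy ι s r := ⟨hr1, hr2⟩
    have hs1 : ∀ d ∈ s, Y697.MQ.Pr d := fun d hd => (Y697.MQ.Pr_iff d).2 (hs d hd).1
    have hg : ∀ U : Finset GaussianInt, (∀ l ∈ U, Y697.MQ.OP l ∧ ∃ d ∈ s, l ∣ d) →
        Disjoint Q U ∧ Y697.MQ.Gd Y697.MQ.gA Y697.MQ.gθ (Q ∪ U) := by
      intro U hU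
      refine hgood U fun l hl => ?_
      obtain ⟨h1, d, hd, hld⟩ := hU l hl
      exact (hs d hd).2 l h1.pr ((Y697.MQ.Pr_iff l).1 h1.pm) hld
    have hE : curve (ι ((∏ x ∈ Q, x) ^ 2)) =
        (W307.RS.ShK (((ι (∏ x ∈ Q, x) : 𝓞 K) : K) ^ 2) (0 : K)).toAffine := by
      unfold curve W307.RS.ShK
      rw [map_pow]
      push_cast
      rfl
    have hF1 : Finite (curve (ι ((∏ x ∈ Q, x) ^ 2))).Point := by
      rw [hE]
      exact Y697.MQ.finite_K ι hgen hs1 Q hQOP hg
    obtain ⟨F, hF, hF0, hprod⟩ := Y697.MQ.KL ι hgen hs1 Q hQOP hg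
    refine ⟨hF1, F, hF, fun z hz => ?_, hF0, ?_⟩
    · have h1 := hprod z hz
      have h2 : (fun v : HeightOneSpectrum (𝓞 K) =>
          if ι (2 * (∏ x ∈ Q, x) * ∏ d ∈ s, d) ∈ v.asIdeal then (1 : ℂ) else
            Y697.MQ.eulerA (ι ((∏ x ∈ Q, x) ^ 2)) z v) =
          Set.mulIndicator {v : HeightOneSpectrum (𝓞 K) |
            ι (2 * (∏ x ∈ Q, x) * ∏ d ∈ s, d) ∉ v.asIdeal}
            (factor (ι ((∏ x ∈ Q, x) ^ 2)) z) := by
        funext v
        by_cases h3 : ι (2 * (∏ x ∈ Q, x) * ∏ d ∈ s, d) ∈ v.asIdeal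
        · rw [if_pos h3, Set.mulIndicator_of_notMem (not_not_intro h3)]
        · rw [if_neg h3, Set.mulIndicator_of_mem h3]
          unfold Y697.MQ.eulerA factor numPoints q
          push_cast
          rw [add_sub_add_right_eq_sub]
      have h3 : HasProd (Set.mulIndicator {v : HeightOneSpectrum (𝓞 K) |
            ι (2 * (∏ x ∈ Q, x) * ∏ d ∈ s, d) ∉ v.asIdeal}
            (factor (ι ((∏ x ∈ Q, x) ^ 2)) z)) (F z) := by
        rw [← h2]
        convert h1
      exact (hasProd_subtype_iff_mulIndicator).2 h3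
    · rw [AnalyticAt.analyticOrderAt_eq_zero (hF.analyticAt 1) |>.2 hF0]
      have h1 : Module.rank ℤ (curve (ι ((∏ x ∈ Q, x) ^ 2))).Point = 0 := by
        rw [rank_eq_zero_iff]
        intro x
        exact ⟨(Nat.card (curve (ι ((∏ x ∈ Q, x) ^ 2))).Point : ℤ),
          by exact_mod_cast Nat.card_pos.ne', by rw [natCast_zsmul]; exact card_nsmul_eq_zero'⟩
      have h2 : rank (ι ((∏ x ∈ Q, x) ^ 2)) = 0 := by
        unfold rank
        rw [Module.finrank]
        simp only [h1, map_zero]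
      rw [h2]
      rfl

/-- **A positive proportion of the primary squarefree `D` prime to `P`, ordered by norm, have this
property.** -/
theorem result : ∀ P : Finset GaussianInt, (∀ p ∈ P, Prime p ∧ Primary p) →
    ∀ᶠ X : ℕ in atTop,
      0.419 ^ (2 ^ P.card) * ((All P X).ncard : ℝ) ≤ ((Tower P X).ncard : ℝ) := by
  classical
  intro P hP₀
  have hP : ∀ p ∈ P, Y697.MQ.OP p := fun p hp =>
    ⟨(hP₀ p hp).1, (Y697.MQ.Pr_iff p).2 (hP₀ p hp).2⟩
  refine (Y697.PQ.many_Dj hP).mono fun X hX => ?_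
  have h1 : ((All P X).ncard : ℝ) ≤
      (((Y697.PP.SS X).filter fun S => Disjoint S P).card : ℝ) := by exact_mod_cast all_le P X
  have h2 : ((Y697.PP.SS X).filter fun S => Y697.PQ.Dj P S).card ≤ (Tower P X).ncard := by
    have h3 : ((((Y697.PP.SS X).filter fun S => Y697.PQ.Dj P S).image fun S => ∏ p ∈ S, p :
        Finset GaussianInt) : Set GaussianInt) ⊆ Tower P X := by
      intro D hD
      rw [Finset.mem_coe, Finset.mem_image] at hD
      obtain ⟨S, hS, rfl⟩ := hD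
      rw [Finset.mem_filter] at hS
      exact mem_tower hP hS.1 hS.2
    have h4 := Set.ncard_le_ncard h3 ((all_finite P X).subset fun D hD => hD.1)
    rw [Set.ncard_coe_finset, Finset.card_image_of_injOn] at h4
    · exact h4
    · intro S hS T hT h
      rw [Finset.mem_coe, Finset.mem_filter, Y697.PP.mem_SS] at hS hT
      exact Y697.PP.prod_inj hS.1.1 hT.1.1 h
  have h3 : (((Y697.PP.SS X).filter fun S => Y697.PQ.Dj P S).card : ℝ) ≤
      ((Tower P X).ncard : ℝ) := by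
    exact_mod_cast h2
  have h4 : 0.419 ^ (2 ^ P.card) * ((All P X).ncard : ℝ) ≤
      0.419 ^ (2 ^ P.card) * (((Y697.PP.SS X).filter fun S => Disjoint S P).card : ℝ) := by
    gcongr
  refine h4.trans (le_trans ?_ h3)
  convert hX

end Pool.Agent.Results.MP_cd906c_nt.ProportionOverTowers
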