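import Pool.Agent.Y699.R10
import Pool.Agent.Y699.Cls
import Pool.Agent.Y715.QT.Top2
import Pool.Agent.Y715.QT.Seq2
import Pool.Agent.Y715.QT.SplG
import Pool.Agent.Y155.QT.Mix
import Pool.Agent.Y394.QT.Dim2
import Pool.Agent.Y427.QT.Loc2
import Pool.Agent.Y474.QT.Loc
import Pool.Agent.Y495.QT.Cnt
import Pool.Agent.Y495.QT.Pri
import Pool.Agent.Y809.QT.Eul
import Pool.Agent.Y828.QT.GM
import Pool.Agent.Y261.QT.DES
import Pool.Agent.Y978.QT.RKG

/-!
# The rank part of the conjecture of Birch and Swinnerton-Dyer over fields `ℚ(i)(⁴√l, √q)`, for a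
# positive proportion of the elliptic curves over `ℚ(i)` with `j`-invariant `1728`

Every elliptic curve over `ℚ(i)` with `j = 1728` is isomorphic to `E_D : y² = x³ + D x` for exactly one
Gaussian integer `D` that no fourth power of a prime divides.  We prove that for a positive
proportion of all these `D`, ordered by norm, there is an infinite set `Q` of primes `l` such that for
every finite subset `S₄` of `Q` and every finite set `S₂` of primes `q` (not dividing `2D`, of norm `1`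
modulo `8`, modulo which `D` is not a square and the `l` in `S₄` are squares) the
following holds for `F = ℚ(i)(⁴√l, √q : l ∈ S₄, q ∈ S₂)`, an abelian extension of `ℚ(i)` with Galois group
`(ℤ/4)^a × (ℤ/2)^b`: `E_D(F)` is finite, `L(E_D/F, s)` has an entire continuation, and
`L(E_D/F, 1) ≠ 0`.

The parts are in the files of helpers 155, 261, 394, 427, 448, 474, 495, 529, 809, 828, 978 (`QT`); the
libraries are those of helper699 (central values, proportion) and helper697 (multiquadratic fields).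
-/

set_option autoImplicit false

namespace Pool.Agent.Results.MP_cd906c_nt.QuarticTowers

open Filter Topology NumberField IsDedekindDomain

/-- `d` is primary: `d ≡ 1` modulo `2 + 2i`. -/
def Primary (d : GaussianInt) : Prop := (⟨2, 2⟩ : GaussianInt) ∣ d - 1

variable {F : Type} [Field F] [NumberField F]

/-- `F = ℚ(i)(⁴√l, √q : l ∈ S₄, q ∈ S₂)`, where `ℤ[i]` is embedded in `F` by `ι`. -/
def Generated (ι : GaussianInt →+* 𝓞 F) (S₄ S₂ : Finset GaussianInt) : Prop :=
  ∃ r : GaussianInt → 𝓞 F, (∀ l ∈ S₄, r l ^ 4 = ι l) ∧ (∀ q ∈ S₂, r q ^ 2 = ι q) ∧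
    ∀ L : Subfield F, (∀ g : GaussianInt, (ι g : F) ∈ L) → (∀ l ∈ S₄, (r l : F) ∈ L) →
      (∀ q ∈ S₂, (r q : F) ∈ L) → L = ⊤

/-- `q_v`, the number of elements of the residue field `k_v`. -/
noncomputable def q (v : HeightOneSpectrum (𝓞 F)) : ℕ := Ideal.absNorm v.asIdeal

/-- `#E(k_v)` with the point at infinity, for `E : y² = x³ + a x`. -/
noncomputable def numPoints (a : 𝓞 F) (v : HeightOneSpectrum (𝓞 F)) : ℕ :=
  Nat.card {P : (𝓞 F ⧸ v.asIdeal) × (𝓞 F ⧸ v.asIdeal) // P.2 ^ 2 =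
    P.1 ^ 3 + Ideal.Quotient.mk v.asIdeal a * P.1} + 1

/-- The Euler factor `(1 - a_v q_v^{-s} + q_v^{1-2s})⁻¹` of `y² = x³ + a x`,
`a_v = q_v + 1 - #E(k_v)`. -/
noncomputable def factor (a : 𝓞 F) (s : ℂ) (v : HeightOneSpectrum (𝓞 F)) : ℂ :=
  (1 - ((q v : ℂ) + 1 - numPoints a v) * (q v : ℂ) ^ (-s) + (q v : ℂ) ^ (1 - 2 * s))⁻¹

/-- The curve `y² = x³ + a x` over `F`. -/
noncomputable def curve (a : 𝓞 F) : WeierstrassCurve.Affine F :=
  WeierstrassCurve.toAffine { a₁ := 0, a₂ := 0, a₃ := 0, a₄ := (a : F), a₆ := 0 }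

open Classical in
/-- The rank of the group of `F`-rational points. -/
noncomputable def rank (a : 𝓞 F) : ℕ := Module.finrank ℤ (curve a).Point

/-- For `E : y² = x³ + D x` the group `E(F)` is finite, the Euler product over the places of `F` which
do not divide `M` has an entire continuation `L` with `L(1) ≠ 0`, and the order of `L` at `1` is the
rank. -/
def RankZero (ι : GaussianInt →+* 𝓞 F) (M D : GaussianInt) : Prop :=
  Finite (curve (ι D)).Point ∧ ∃ L : ℂ → ℂ, Differentiable ℂ L ∧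
    (∀ z : ℂ, 3 / 2 < z.re → HasProd (fun v : {v : HeightOneSpectrum (𝓞 F) //
      ι M ∉ v.asIdeal} => factor (ι D) z v.1) (L z)) ∧
    L 1 ≠ 0 ∧ analyticOrderAt L 1 = rank (ι D)

/-- `D` is not zero and no fourth power of a prime divides it. -/
def FourthPowerFree (D : GaussianInt) : Prop := D ≠ 0 ∧ ∀ π : GaussianInt, Prime π → ¬ π ^ 4 ∣ D

/-- All the parameters `D` of norm at most `X`; each of them is one elliptic curve over `ℚ(i)` with
`j = 1728`, up to isomorphism. -/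
def Family (X : ℕ) : Set GaussianInt := {D | FourthPowerFree D ∧ D.norm ≤ X}

/-- The primes allowed for the square roots: `q` is a primary prime that does not divide `D`, of norm
`1` modulo `8`, `D` is not a square modulo `q`, and the elements of `S₄` are prime to `q` and squares
modulo `q`. -/
def Allowed (D : GaussianInt) (S₄ : Finset GaussianInt) : Set GaussianInt :=
  {q | Prime q ∧ Primary q ∧ ¬ q ∣ D ∧ q.norm % 8 = 1 ∧ (¬ ∃ x : GaussianInt, q ∣ D - x ^ 2) ∧
    ∀ l ∈ S₄, ¬ q ∣ l ∧ ∃ x : GaussianInt, q ∣ l - x ^ 2}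

/-- Those `D` for which there is an infinite set `Q` of primary primes not dividing `D` such that for
every finite subset `S₄` of `Q` the set `Allowed D S₄` is infinite, and for every finite subset `S₂` of
`Allowed D S₄` the field `ℚ(i)(⁴√l, √q : l ∈ S₄, q ∈ S₂)` has degree `2 · 4 ^ #S₄ · 2 ^ #S₂`, and the rank of
`E_D : y² = x³ + D x` over it and the order of vanishing of the `L`-function are zero. -/
def Tower (X : ℕ) : Set GaussianInt := {D | D ∈ Family X ∧
  ∃ Q : Set GaussianInt, Q.Infinite ∧ (∀ l ∈ Q, Prime l ∧ Primary l ∧ ¬ l ∣ D) ∧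
    ∀ S₄ : Finset GaussianInt, (∀ l ∈ S₄, l ∈ Q) → (Allowed D S₄).Infinite ∧
      ∀ S₂ : Finset GaussianInt, (∀ q ∈ S₂, q ∈ Allowed D S₄) →
        ∀ (F : Type) [Field F] [NumberField F] (ι : GaussianInt →+* 𝓞 F), Generated ι S₄ S₂ →
          Module.finrank ℚ F = 2 * (4 ^ S₄.card * 2 ^ S₂.card) ∧
          RankZero ι (2 * D * ((∏ l ∈ S₄, l) * ∏ q ∈ S₂, q)) D}

theorem primary_iff (d : GaussianInt) :
    Primary d ↔ Pool.Agent.H304R2.EC.A1.prim d := (Pool.Agent.W164.RC.prim_iff_dvd d).symm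

theorem pp_iff (d : GaussianInt) : Prime d ∧ Primary d ↔ Pool.Agent.Y699.PP d :=
  ⟨fun h => ⟨h.1, (primary_iff d).1 h.2⟩, fun h => ⟨h.pr, (primary_iff d).2 h.prm⟩⟩

theorem allowed_eq (D : GaussianInt) (S₄ : Finset GaussianInt) :
    Allowed D S₄ = {q | Pool.Agent.Y715.QT.Alw D S₄ q} := by
  ext q
  constructor
  · rintro ⟨h1, h2, h3, h4, h5, h6⟩
    exact ⟨(pp_iff q).1 ⟨h1, h2⟩, h3, h4, h5, h6⟩
  · intro h
    have h1 := (pp_iff q).2 h.pp
    exact ⟨h1.1, h1.2, h.nd, h.nm, h.ns, h.cr⟩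

theorem factor_eq (a : 𝓞 F) (s : ℂ) (v : HeightOneSpectrum (𝓞 F)) :
    Pool.Agent.Y715.QT.ef a s v = factor a s v := by
  unfold Pool.Agent.Y715.QT.ef factor numPoints q Pool.Agent.Y699.cnt4
  push_cast
  rw [add_sub_add_right_eq_sub]

theorem family_finite (X : ℕ) : (Family X).Finite := by
  refine (Pool.Agent.Y699.fin_norm_le X).subset ?_
  rintro D ⟨-, h⟩
  have h0 := GaussianInt.norm_nonneg D
  show D.norm.natAbs ≤ X
  omega

/-- There are at most `9 X` parameters of norm at most `X`. -/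
theorem family_le {X : ℕ} (hX : 1 ≤ X) : (Family X).ncard ≤ 9 * X := by
  classical
  set s := Nat.sqrt X with hs
  have hs1 : 1 ≤ s := Nat.le_sqrt.2 (by omega)
  set B : Finset (ℤ × ℤ) := (Finset.Icc (-(s : ℤ)) s) ×ˢ (Finset.Icc (-(s : ℤ)) s) with hB
  have hinj : Set.InjOn (fun D : GaussianInt => (D.re, D.im)) (Family X) := by
    intro a _ b _ hab
    simp only [Prod.mk.injEq] at hab
    exact Zsqrtd.ext hab.1 hab.2
  have hmaps : ∀ D ∈ Family X, (fun D : GaussianInt => (D.re, D.im)) D ∈ (B : Set (ℤ × ℤ)) := by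
    rintro D ⟨-, h⟩
    have h1 : D.norm = D.re ^ 2 + D.im ^ 2 := by
      rw [Zsqrtd.norm_def]; ring
    have h4 : D.re.natAbs ≤ s := by
      rw [hs, Nat.le_sqrt']; zify; rw [sq_abs]; nlinarith [sq_nonneg D.im]
    have h5 : D.im.natAbs ≤ s := by
      rw [hs, Nat.le_sqrt']; zify; rw [sq_abs]; nlinarith [sq_nonneg D.re]
    rw [hB, Finset.mem_coe, Finset.mem_product, Finset.mem_Icc, Finset.mem_Icc]
    refine ⟨⟨?_, ?_⟩, ⟨?_, ?_⟩⟩ <;> simp only <;> omega
  have h1 := Set.ncard_le_ncard_of_injOn _ hmaps hinj (Finset.finite_toSet B)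
  rw [Set.ncard_coe_finset] at h1
  refine h1.trans ?_
  have h2 : (Finset.Icc (-(s : ℤ)) s).card = 2 * s + 1 := by
    rw [Int.card_Icc]; omega
  rw [hB, Finset.card_product, h2]
  have h3 : s * s ≤ X := Nat.sqrt_le X
  nlinarith

theorem good_tower (pri : Pool.Agent.Y715.QT.S_PRI) (spl : Pool.Agent.Y715.QT.S_SPL2)
    (cnt : Pool.Agent.Y715.QT.S_CNT) (rk : Pool.Agent.Y715.QT.S_RK2)
    (eul : Pool.Agent.Y715.QT.S_EUL) (loc : Pool.Agent.Y715.QT.S_LOC2)
    (gm : Pool.Agent.Y715.QT.S_GM) (des : Pool.Agent.Y715.QT.S_DES) {D : GaussianInt}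
    (hg : Pool.Agent.Y699.Good4 D) :
    ∃ Q : Set GaussianInt, Q.Infinite ∧ (∀ l ∈ Q, Prime l ∧ Primary l ∧ ¬ l ∣ D) ∧
    ∀ S₄ : Finset GaussianInt, (∀ l ∈ S₄, l ∈ Q) → (Allowed D S₄).Infinite ∧
      ∀ S₂ : Finset GaussianInt, (∀ q ∈ S₂, q ∈ Allowed D S₄) →
        ∀ (F : Type) [Field F] [NumberField F] (ι : GaussianInt →+* 𝓞 F), Generated ι S₄ S₂ →
          Module.finrank ℚ F = 2 * (4 ^ S₄.card * 2 ^ S₂.card) ∧
          RankZero ι (2 * D * ((∏ l ∈ S₄, l) * ∏ q ∈ S₂, q)) D := by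
  classical
  have hD := hg.ps.ne
  obtain ⟨p1, hp1⟩ := Pool.Agent.Y715.QT.exists_p1 hg
  obtain ⟨Q, hQ1, hQ2, hQ3⟩ := Pool.Agent.Y715.QT.exists_set pri hD hp1
  refine ⟨Q, hQ1, fun l hl => ?_, fun S₄ hS₄ => ⟨?_, fun S₂ hS₂ F _ _ ι hF => ?_⟩⟩
  · have h1 := (pp_iff l).2 (hQ2 l hl).1
    exact ⟨h1.1, h1.2, (hQ2 l hl).2⟩
  · rw [allowed_eq]
    exact Pool.Agent.Y715.QT.alw_infinite pri hg hp1 (hQ3 S₄ hS₄)
  · obtain ⟨r, hr⟩ := hF
    have hA : Pool.Agent.Y715.QT.Adm2 D p1 S₄ S₂ :=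
      Pool.Agent.Y715.QT.adm2_of (hQ3 S₄ hS₄) fun q hq => by
        have h1 := hS₂ q hq
        rw [allowed_eq] at h1
        exact h1
    obtain ⟨h1, L, hL1, hL2, hL3⟩ := Pool.Agent.Y715.QT.core2 spl cnt rk eul loc gm des hg hp1 hA ι hr
    have h1' : Finite (curve (ι D)).Point := h1
    refine ⟨Pool.Agent.Y394.QT.dim2 F ι S₄ S₂ r hA.a4.pp hA.pp hA.dj hr,
      h1', L, hL1, fun z hz => ?_, hL2, ?_⟩
    · refine (hL3 z hz).congr_fun fun v => ?_
      exact (factor_eq _ _ _).symm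
    · rw [AnalyticAt.analyticOrderAt_eq_zero (hL1.analyticAt 1) |>.2 hL2]
      have h2 : Module.rank ℤ (curve (ι D)).Point = 0 := by
        rw [rank_eq_zero_iff]
        intro x
        exact ⟨(Nat.card (curve (ι D)).Point : ℤ),
          by exact_mod_cast Nat.card_pos.ne', by rw [natCast_zsmul]; exact card_nsmul_eq_zero'⟩
      have h3 : rank (ι D) = 0 := by
        unfold rank
        rw [Module.finrank]
        simp only [h2, map_zero]
      rw [h3]
      rfl

/-- **Main theorem.**  There is `c > 0` such that for all large `X` at least the proportion `c` of all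
Gaussian integers `D` of norm at most `X` that no fourth power of a prime divides, and at least `c X` of
them, have the following property for `E_D : y² = x³ + D x`.  There is an infinite set `Q` of primes
such that for every finite subset `S₄` of `Q` there are infinitely many allowed primes, and for every
finite set `S₂` of allowed primes and `F = ℚ(i)(⁴√l, √q : l ∈ S₄, q ∈ S₂)`: `E_D(F)` is finite, `L(E_D/F, s)`
is entire, and its order of vanishing at `1` is `0`, the rank; `[F : ℚ] = 2 · 4 ^ #S₄ · 2 ^ #S₂`.  By the theorem `classification` these `D` are the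
isomorphism classes of the elliptic curves over `ℚ(i)` with `j`-invariant `1728`. -/
theorem result : ∃ c : ℝ, 0 < c ∧ ∃ X₀ : ℕ, ∀ X : ℕ, X₀ ≤ X →
    c * ((Family X).ncard : ℝ) ≤ ((Tower X).ncard : ℝ) ∧ c * X ≤ ((Tower X).ncard : ℝ) := by
  obtain ⟨c, hc, X₀, h⟩ := Pool.Agent.Y699.positive₄
  have key : ∀ X : ℕ, X₀ ≤ X → c * X ≤ ((Tower X).ncard : ℝ) := by
    intro X hX
    refine (h X hX).trans ?_
    have h1 : ((Pool.Agent.Y699.GB₄ X : Finset GaussianInt) : Set GaussianInt) ⊆ Tower X := by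
      intro D hD
      have h2 : D ∈ Pool.Agent.Y699.SB X ∧ Pool.Agent.Y699.Good4 D := by
        have h0 := Finset.mem_coe.1 hD
        unfold Pool.Agent.Y699.GB₄ at h0
        classical
        exact Finset.mem_filter.1 h0
      have h3 := (Pool.Agent.Y699.mem_SB).1 h2.1
      refine ⟨⟨⟨h3.2.ne, fun π hπ h5 => ?_⟩, ?_⟩, 
        good_tower Pool.Agent.Y495.QT.pri
          (Pool.Agent.Y155.QT.spl2 Pool.Agent.Y715.QT.splg Pool.Agent.Y394.QT.dim2)
          Pool.Agent.Y495.QT.cnt (Pool.Agent.Y155.QT.rk2 Pool.Agent.Y978.QT.rkg)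
          Pool.Agent.Y809.QT.eul (Pool.Agent.Y427.QT.loc2 Pool.Agent.Y474.QT.loc)
          Pool.Agent.Y828.QT.gm Pool.Agent.Y261.QT.des h2.2⟩
      · exact hπ.not_isUnit (h3.2.sqf π (dvd_trans ⟨π ^ 2, by ring⟩ h5))
      · have h4 : D.norm.natAbs ≤ X := h3.1
        omega
    have h5 := Set.ncard_le_ncard h1 ((family_finite X).subset fun D hD => hD.1)
    rw [Set.ncard_coe_finset] at h5
    exact_mod_cast h5
  refine ⟨c / 9, by positivity, max X₀ 1, fun X hX => ?_⟩
  have hX0 : X₀ ≤ X := (le_max_left _ _).trans hX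
  have hX1 : 1 ≤ X := (le_max_right _ _).trans hX
  have h1 := key X hX0
  have h2 : ((Family X).ncard : ℝ) ≤ 9 * X := by exact_mod_cast family_le hX1
  have h3 : (0 : ℝ) ≤ X := Nat.cast_nonneg X
  constructor
  · calc c / 9 * ((Family X).ncard : ℝ) ≤ c / 9 * (9 * X) :=
          mul_le_mul_of_nonneg_left h2 (by positivity)
      _ = c * X := by ring
      _ ≤ _ := h1
  · calc c / 9 * (X : ℝ) ≤ c * X := by nlinarith
      _ ≤ _ := h1

end Pool.Agent.Results.MP_cd906c_nt.QuarticTowers
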